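import Pool.Agent.Helper93.FZ.St

/-!
Project FZ (MP_953b28_co): module INT (integral outline squares).
-/

set_option autoImplicit false

namespace Pool.Agent.Helper87.FZ

open Finset
open Pool.Agent.Helper93.FZ

private theorem s1 {R : Type} [CommRing R] {n : ℕ} (f : Fin n × Fin n × Fin n → R) (r c : Fin n) :
    ∑ i : Fin n × Fin n × Fin n, (if i.1 = r ∧ i.2.1 = c then (1 : R) else 0) * f i =
      ∑ s, f (r, c, s) := by
  rw [Fintype.sum_prod_type, Finset.sum_eq_single r]
  · rw [Fintype.sum_prod_type, Finset.sum_eq_single c]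
    · apply Finset.sum_congr rfl
      intro s _
      simp
    · intro c' _ hc
      apply Finset.sum_eq_zero
      intro s _
      simp [hc]
    · simp
  · intro r' _ hr
    apply Finset.sum_eq_zero
    intro s _
    simp [hr]
  · simp

private theorem s2 {R : Type} [CommRing R] {n : ℕ} (f : Fin n × Fin n × Fin n → R) (r s : Fin n) :
    ∑ i : Fin n × Fin n × Fin n, (if i.1 = r ∧ i.2.2 = s then (1 : R) else 0) * f i =
      ∑ c, f (r, c, s) := by
  rw [Fintype.sum_prod_type, Finset.sum_eq_single r]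
  · rw [Fintype.sum_prod_type]
    apply Finset.sum_congr rfl
    intro c _
    rw [Finset.sum_eq_single s]
    · simp
    · intro s' _ hs
      simp [hs]
    · simp
  · intro r' _ hr
    apply Finset.sum_eq_zero
    intro s _
    simp [hr]
  · simp

private theorem s3 {R : Type} [CommRing R] {n : ℕ} (f : Fin n × Fin n × Fin n → R) (c s : Fin n) :
    ∑ i : Fin n × Fin n × Fin n, (if i.2.1 = c ∧ i.2.2 = s then (1 : R) else 0) * f i =
      ∑ r, f (r, c, s) := by
  rw [Fintype.sum_prod_type]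
  apply Finset.sum_congr rfl
  intro r _
  rw [Fintype.sum_prod_type, Finset.sum_eq_single c]
  · rw [Finset.sum_eq_single s]
    · simp
    · intro s' _ hs
      simp [hs]
    · simp
  · intro c' _ hc
    apply Finset.sum_eq_zero
    intro s' _
    simp [hc]
  · simp

private theorem cst (p : Prop) [Decidable p] :
    (((if p then (1 : ℚ) else 0) : ℚ) : ℝ) = if p then 1 else 0 := by
  split_ifs <;> simp

/-- INT. Integral outline squares from a fractional completion. -/
theorem hINT : StINT := by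
  intro hRAT n P x hx
  classical
  -- the linear system
  let κ := (Fin n × Fin n) ⊕ (Fin n × Fin n) ⊕ (Fin n × Fin n) ⊕ (Fin n × Fin n × Fin n)
  let M : κ → Fin n × Fin n × Fin n → ℚ := fun e i =>
    match e with
    | Sum.inl p => if i.1 = p.1 ∧ i.2.1 = p.2 then 1 else 0
    | Sum.inr (Sum.inl p) => if i.1 = p.1 ∧ i.2.2 = p.2 then 1 else 0
    | Sum.inr (Sum.inr (Sum.inl p)) => if i.2.1 = p.1 ∧ i.2.2 = p.2 then 1 else 0
    | Sum.inr (Sum.inr (Sum.inr p)) => if i = p ∧ P p.1 p.2.1 = some p.2.2 then 1 else 0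
  let b : κ → ℚ := fun e =>
    match e with
    | Sum.inl _ => 1
    | Sum.inr (Sum.inl _) => 1
    | Sum.inr (Sum.inr (Sum.inl _)) => 1
    | Sum.inr (Sum.inr (Sum.inr p)) => if P p.1 p.2.1 = some p.2.2 then 1 else 0
  have hsys : ∀ e, ∑ i, (M e i : ℝ) * (fun i : Fin n × Fin n × Fin n => x i.1 i.2.1 i.2.2) i =
      b e := by
    rintro (p | p | p | p)
    · have h := s1 (fun i : Fin n × Fin n × Fin n => x i.1 i.2.1 i.2.2) p.1 p.2
      show ∑ i : Fin n × Fin n × Fin n, (((if i.1 = p.1 ∧ i.2.1 = p.2 then (1 : ℚ) else 0 : ℚ)) : ℝ)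
        * x i.1 i.2.1 i.2.2 = ((1 : ℚ) : ℝ)
      simp only [cst, Rat.cast_one]
      rw [h]
      exact hx.cell p.1 p.2
    · have h := s2 (fun i : Fin n × Fin n × Fin n => x i.1 i.2.1 i.2.2) p.1 p.2
      show ∑ i : Fin n × Fin n × Fin n, (((if i.1 = p.1 ∧ i.2.2 = p.2 then (1 : ℚ) else 0 : ℚ)) : ℝ)
        * x i.1 i.2.1 i.2.2 = ((1 : ℚ) : ℝ)
      simp only [cst, Rat.cast_one]
      rw [h]
      exact hx.row p.1 p.2
    · have h := s3 (fun i : Fin n × Fin n × Fin n => x i.1 i.2.1 i.2.2) p.1 p.2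
      show ∑ i : Fin n × Fin n × Fin n,
        (((if i.2.1 = p.1 ∧ i.2.2 = p.2 then (1 : ℚ) else 0 : ℚ)) : ℝ)
        * x i.1 i.2.1 i.2.2 = ((1 : ℚ) : ℝ)
      simp only [cst, Rat.cast_one]
      rw [h]
      exact hx.col p.1 p.2
    · show ∑ i : Fin n × Fin n × Fin n,
        (((if i = p ∧ P p.1 p.2.1 = some p.2.2 then (1 : ℚ) else 0 : ℚ)) : ℝ)
        * x i.1 i.2.1 i.2.2 = (((if P p.1 p.2.1 = some p.2.2 then (1 : ℚ) else 0) : ℚ) : ℝ)
      rw [Finset.sum_eq_single p]
      · by_cases hp : P p.1 p.2.1 = some p.2.2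
        · simp [hp, hx.agree p.1 p.2.1 p.2.2 hp]
        · simp [hp]
      · intro i _ hi
        simp [hi]
      · simp
  obtain ⟨y, hy1, hy2, hy3⟩ := hRAT (Fin n × Fin n × Fin n) κ M b
    (fun i => x i.1 i.2.1 i.2.2) (fun i => hx.nonneg _ _ _) hsys
  have hy0 : ∀ i, 0 ≤ y i := by
    intro i
    rcases (hx.nonneg i.1 i.2.1 i.2.2).lt_or_eq with h | h
    · exact (hy1 i h).le
    · exact (hy2 i h.symm).ge
  have hcell : ∀ r c, ∑ s, y (r, c, s) = 1 := fun r c => by
    rw [← s1 y r c]; exact hy3 (Sum.inl (r, c))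
  have hrow : ∀ r s, ∑ c, y (r, c, s) = 1 := fun r s => by
    rw [← s2 y r s]; exact hy3 (Sum.inr (Sum.inl (r, s)))
  have hcol : ∀ c s, ∑ r, y (r, c, s) = 1 := fun c s => by
    rw [← s3 y c s]; exact hy3 (Sum.inr (Sum.inr (Sum.inl (c, s))))
  have hag : ∀ r c s, P r c = some s → y (r, c, s) = 1 := by
    intro r c s h
    have h1 : ∑ i : Fin n × Fin n × Fin n,
        (if i = (r, c, s) ∧ P r c = some s then (1 : ℚ) else 0) * y i =
        if P r c = some s then 1 else 0 := hy3 (Sum.inr (Sum.inr (Sum.inr (r, c, s))))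
    rw [Finset.sum_eq_single (r, c, s)] at h1
    · simpa [h] using h1
    · intro i _ hi
      simp [hi]
    · simp
  -- the common denominator
  have hden : ∀ i, (y i).den ∣ ∏ j, (y j).den := fun i => Finset.dvd_prod_of_mem _ (mem_univ i)
  refine ⟨∏ j, (y j).den, Nat.one_le_iff_ne_zero.mpr
    (Finset.prod_ne_zero_iff.mpr fun i _ => (y i).den_nz), ?_⟩
  generalize (∏ j, (y j).den) = D at hden
  intro m _
  have hX : ∀ i, ∃ a : ℕ, (a : ℚ) = ((m * D : ℕ) : ℚ) ^ 2 * y i := by
    intro i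
    obtain ⟨t, ht⟩ := hden i
    have hn : ((y i).num.toNat : ℤ) = (y i).num := Int.toNat_of_nonneg (Rat.num_nonneg.mpr (hy0 i))
    refine ⟨m ^ 2 * D * t * (y i).num.toNat, ?_⟩
    have h1 : (y i) * ((y i).den : ℚ) = (y i).num := Rat.mul_den_eq_num _
    have h2 : (((y i).num.toNat : ℕ) : ℚ) = ((y i).num : ℚ) := by
      exact_mod_cast hn
    have h3 : (D : ℚ) = (y i).den * t := by exact_mod_cast ht
    push_cast
    rw [h2, ← h1]
    calc (m : ℚ) ^ 2 * D * t * (y i * (y i).den) = m ^ 2 * D * (((y i).den * t)) * y i := by ring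
      _ = m ^ 2 * D * D * y i := by rw [← h3]
      _ = _ := by ring
  choose X hX using hX
  refine ⟨fun r c s => X (r, c, s), ?_, ?_, ?_, ?_⟩
  · intro r c
    have : ((∑ s, X (r, c, s) : ℕ) : ℚ) = (((m * D) ^ 2 : ℕ) : ℚ) := by
      push_cast
      simp only [hX]
      rw [← Finset.mul_sum, hcell, mul_one]
      push_cast
      ring
    exact_mod_cast this
  · intro r s
    have : ((∑ c, X (r, c, s) : ℕ) : ℚ) = (((m * D) ^ 2 : ℕ) : ℚ) := by
      push_cast
      simp only [hX]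
      rw [← Finset.mul_sum, hrow, mul_one]
      push_cast
      ring
    exact_mod_cast this
  · intro c s
    have : ((∑ r, X (r, c, s) : ℕ) : ℚ) = (((m * D) ^ 2 : ℕ) : ℚ) := by
      push_cast
      simp only [hX]
      rw [← Finset.mul_sum, hcol, mul_one]
      push_cast
      ring
    exact_mod_cast this
  · intro r c s h
    have : ((X (r, c, s) : ℕ) : ℚ) = (((m * D) ^ 2 : ℕ) : ℚ) := by
      rw [hX, hag r c s h, mul_one]
      push_cast
      ring
    exact_mod_cast this

end Pool.Agent.Helper87.FZ
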